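import Pool.Agent.Helper14.FO.Defs

/-! MP_190084_co: the bound of Frankl and Wilson for sets avoiding one distance. -/

set_option autoImplicit false

namespace Pool.Agent.Helper14.FO

open Finset

/-- monomials on the cube -/
def fwMono (N P : ℕ) (S : Finset (Fin N)) : (Fin N → ZMod 2) → ZMod P :=
  fun y => if ∀ i ∈ S, y i = 1 then 1 else 0

/-- functions of degree at most `k` -/
def fwW (N P k : ℕ) : Submodule (ZMod P) ((Fin N → ZMod 2) → ZMod P) :=
  Submodule.span (ZMod P) ((fwMono N P) '' {S | S.card ≤ k})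

theorem fw_ind (N P : ℕ) (x : Fin N → ZMod 2) (i : Fin N) (S : Finset (Fin N)) :
    (fun y : Fin N → ZMod 2 => (if x i ≠ y i then (1 : ZMod P) else 0) * fwMono N P S y) =
      if x i = 0 then fwMono N P (insert i S)
      else fwMono N P S - fwMono N P (insert i S) := by
  have h2 : ∀ a b : ZMod 2, a = 0 → (a ≠ b ↔ b = 1) := by decide
  have h3 : ∀ a b : ZMod 2, a ≠ 0 → (a ≠ b ↔ ¬ b = 1) := by decide
  by_cases hx : x i = 0
  · rw [if_pos hx]
    funext y
    show (if x i ≠ y i then (1 : ZMod P) else 0) * (if ∀ j ∈ S, y j = 1 then 1 else 0) =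
      if ∀ j ∈ insert i S, y j = 1 then 1 else 0
    simp only [Finset.forall_mem_insert, h2 _ _ hx]
    by_cases hy : y i = 1
    · by_cases hS : ∀ j ∈ S, y j = 1
      · rw [if_pos hy, if_pos hS, if_pos ⟨hy, hS⟩, mul_one]
      · rw [if_pos hy, if_neg hS, if_neg (fun h => hS h.2), mul_zero]
    · rw [if_neg hy, zero_mul]
      exact (if_neg (fun h => hy h.1)).symm
  · rw [if_neg hx]
    funext y
    show (if x i ≠ y i then (1 : ZMod P) else 0) * (if ∀ j ∈ S, y j = 1 then 1 else 0) =
      (if ∀ j ∈ S, y j = 1 then 1 else 0) - if ∀ j ∈ insert i S, y j = 1 then 1 else 0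
    simp only [Finset.forall_mem_insert, h3 _ _ hx]
    by_cases hy : y i = 1
    · by_cases hS : ∀ j ∈ S, y j = 1
      · rw [if_neg (fun h => h hy), if_pos hS, if_pos ⟨hy, hS⟩, zero_mul, sub_self]
      · rw [if_neg (fun h => h hy), if_neg hS, if_neg (fun h => hS h.2), zero_mul, sub_self]
    · rw [if_pos hy, one_mul]
      have h4 : (if y i = 1 ∧ ∀ j ∈ S, y j = 1 then (1 : ZMod P) else 0) = 0 :=
        if_neg (fun h => hy h.1)
      rw [h4, sub_zero]

theorem fw_mem (N P k : ℕ) (S : Finset (Fin N)) (hS : S.card ≤ k) : fwMono N P S ∈ fwW N P k :=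
  Submodule.subset_span ⟨S, hS, rfl⟩

/-- one factor -/
theorem fw_step (N P k : ℕ) (x : Fin N → ZMod 2) (c : ZMod P)
    (g : (Fin N → ZMod 2) → ZMod P) (hg : g ∈ fwW N P k) :
    (fun y => ((hammingDist x y : ℕ) : ZMod P) - c) * g ∈ fwW N P (k + 1) := by
  have key : fwW N P k ≤ (fwW N P (k + 1)).comap
      (LinearMap.mulLeft (ZMod P) (fun y => ((hammingDist x y : ℕ) : ZMod P) - c)) := by
    apply Submodule.span_le.2
    rintro _ ⟨S, hS, rfl⟩
    have hS' : S.card ≤ k := hS
    rw [SetLike.mem_coe, Submodule.mem_comap, LinearMap.mulLeft_apply]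
    have h1 : (fun y => ((hammingDist x y : ℕ) : ZMod P) - c) * fwMono N P S =
        (∑ i : Fin N, fun y : Fin N → ZMod 2 =>
          (if x i ≠ y i then (1 : ZMod P) else 0) * fwMono N P S y) - c • fwMono N P S := by
      funext y
      rw [Pi.mul_apply, Pi.sub_apply, Finset.sum_apply, Pi.smul_apply, smul_eq_mul, sub_mul,
        ← Finset.sum_mul]
      have h2 : ((hammingDist x y : ℕ) : ZMod P) =
          ∑ i : Fin N, (if x i ≠ y i then (1 : ZMod P) else 0) := by
        rw [Finset.sum_boole]
        rfl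
      rw [h2]
    rw [h1]
    apply Submodule.sub_mem
    · apply Submodule.sum_mem
      intro i _
      rw [fw_ind]
      have h3 : (insert i S).card ≤ k + 1 := by
        have := Finset.card_insert_le i S
        omega
      by_cases hx : x i = 0
      · rw [if_pos hx]
        exact fw_mem N P (k + 1) _ h3
      · rw [if_neg hx]
        exact Submodule.sub_mem _ (fw_mem N P (k + 1) _ (by omega)) (fw_mem N P (k + 1) _ h3)
    · exact Submodule.smul_mem _ _ (fw_mem N P (k + 1) _ (by omega))
  have h := key hg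
  rw [Submodule.mem_comap, LinearMap.mulLeft_apply] at h
  exact h

/-- the function vanishing at the distances not divisible by `P` -/
def fwF (N P : ℕ) (x : Fin N → ZMod 2) (k : ℕ) : (Fin N → ZMod 2) → ZMod P :=
  ∏ j ∈ range k, (fun y => ((hammingDist x y : ℕ) : ZMod P) - ((j + 1 : ℕ) : ZMod P))

theorem fwF_mem (N P : ℕ) (x : Fin N → ZMod 2) (k : ℕ) : fwF N P x k ∈ fwW N P k := by
  induction k with
  | zero =>
    have h : fwF N P x 0 = fwMono N P ∅ := by
      funext y
      rw [fwF, Finset.range_zero, Finset.prod_empty, fwMono, if_pos]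
      · rfl
      · intro i hi
        exact absurd hi (Finset.notMem_empty i)
    rw [h]
    exact fw_mem N P 0 ∅ (by simp)
  | succ k ih =>
    have h : fwF N P x (k + 1) =
        (fun y => ((hammingDist x y : ℕ) : ZMod P) - ((k + 1 : ℕ) : ZMod P)) * fwF N P x k := by
      rw [fwF, Finset.prod_range_succ, mul_comm]
      rfl
    rw [h]
    exact fw_step N P k x _ _ ih

theorem fw_finrank (N P k : ℕ) [Fact P.Prime] :
    Module.finrank (ZMod P) (fwW N P k) ≤ ∑ i ∈ range (k + 1), N.choose i := by
  classical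
  have h1 : fwW N P k = Submodule.span (ZMod P)
      (((univ : Finset (Finset (Fin N))).filter (fun S => S.card ≤ k)).image (fwMono N P) :
        Set ((Fin N → ZMod 2) → ZMod P)) := by
    rw [fwW]
    congr 1
    rw [Finset.coe_image, Finset.coe_filter]
    congr 1
    ext S
    simp
  rw [h1]
  refine le_trans (finrank_span_finset_le_card _) (le_trans Finset.card_image_le ?_)
  have h2 : ((univ : Finset (Finset (Fin N))).filter (fun S => S.card ≤ k)) =
      (range (k + 1)).biUnion (fun i => powersetCard i (univ : Finset (Fin N))) := by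
    ext S
    simp only [mem_filter, mem_univ, true_and, mem_biUnion, mem_range, mem_powersetCard,
      subset_univ]
    constructor
    · intro h
      exact ⟨S.card, by omega, rfl⟩
    · rintro ⟨i, hi, h⟩
      omega
  rw [h2]
  refine le_trans Finset.card_biUnion_le ?_
  apply Finset.sum_le_sum
  intro i _
  rw [Finset.card_powersetCard, Finset.card_univ, Fintype.card_fin]

theorem fw_part (N P : ℕ) (hP : P.Prime) (I : Finset (Fin N → ZMod 2))
    (hI : ∀ x ∈ I, ∀ y ∈ I, x ≠ y → ¬ P ∣ hammingDist x y) :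
    I.card ≤ ∑ i ∈ range P, N.choose i := by
  classical
  haveI : Fact P.Prime := ⟨hP⟩
  have hval : ∀ x y, fwF N P x (P - 1) y =
      ∏ j ∈ range (P - 1), (((hammingDist x y : ℕ) : ZMod P) - ((j + 1 : ℕ) : ZMod P)) := by
    intro x y
    rw [fwF, Finset.prod_apply]
  have h0 : ∀ x ∈ I, ∀ y ∈ I, x ≠ y → fwF N P x (P - 1) y = 0 := by
    intro x hx y hy hxy
    rw [hval]
    have h1 := hI x hx y hy hxy
    have h2 : 0 < hammingDist x y % P := Nat.pos_of_ne_zero fun h => h1 (Nat.dvd_of_mod_eq_zero h)
    have h3 : hammingDist x y % P < P := Nat.mod_lt _ hP.pos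
    apply Finset.prod_eq_zero (i := hammingDist x y % P - 1)
    · rw [mem_range]; omega
    · have h4 : hammingDist x y % P - 1 + 1 = hammingDist x y % P := by omega
      rw [h4, sub_eq_zero, ZMod.natCast_mod]
  have hne : ∀ x, fwF N P x (P - 1) x ≠ 0 := by
    intro x
    rw [hval, Finset.prod_ne_zero_iff]
    intro j hj
    rw [mem_range] at hj
    rw [hammingDist_self, Nat.cast_zero, zero_sub, neg_ne_zero, Ne, ZMod.natCast_eq_zero_iff]
    intro h
    have := Nat.le_of_dvd (by omega) h
    omega
  let b : I → fwW N P (P - 1) := fun x => ⟨fwF N P x.1 (P - 1), fwF_mem N P x.1 (P - 1)⟩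
  have hb : LinearIndependent (ZMod P) b := by
    rw [Fintype.linearIndependent_iff]
    intro g hg i
    have h1 : ∑ j : I, g j * fwF N P j.1 (P - 1) i.1 = 0 := by
      have h2 := congrArg (fun v : fwW N P (P - 1) => v.1 i.1) hg
      simp only [Submodule.coe_sum, Submodule.coe_smul, Finset.sum_apply, Pi.smul_apply,
        smul_eq_mul, Submodule.coe_zero, Pi.zero_apply] at h2
      exact h2
    rw [Finset.sum_eq_single i] at h1
    · rcases mul_eq_zero.1 h1 with h | h
      · exact h
      · exact absurd h (hne i.1)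
    · intro j _ hji
      rw [h0 j.1 j.2 i.1 i.2 (fun h => hji (Subtype.ext h)), mul_zero]
    · intro h
      exact absurd (Finset.mem_univ i) h
  have h1 := hb.fintype_card_le_finrank
  rw [Fintype.card_coe] at h1
  have h2 := fw_finrank N P (P - 1)
  have h3 : P - 1 + 1 = P := by have := hP.pos; omega
  rw [h3] at h2
  exact le_trans h1 h2

theorem fw_parity (N : ℕ) (x y : Fin N → ZMod 2) :
    ((hammingDist x y : ℕ) : ZMod 2) = (∑ i, x i) + ∑ i, y i := by
  have h2 : ((hammingDist x y : ℕ) : ZMod 2) =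
      ∑ i : Fin N, (if x i ≠ y i then (1 : ZMod 2) else 0) := by
    rw [Finset.sum_boole]
    rfl
  rw [h2, ← Finset.sum_add_distrib]
  apply Finset.sum_congr rfl
  intro i _
  have h3 : ∀ a b : ZMod 2, (if a ≠ b then (1 : ZMod 2) else 0) = a + b := by decide
  exact h3 _ _

theorem st_FW : ST_FW := by
  intro N P hP h2P hN I hI
  classical
  have hpart : ∀ J : Finset (Fin N → ZMod 2), J ⊆ I →
      (∀ x ∈ J, ∀ y ∈ J, (∑ i, x i) = ∑ i, y i) → J.card ≤ ∑ i ∈ range P, N.choose i := by
    intro J hJI hJ
    apply fw_part N P hP J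
    intro x hx y hy hxy hd
    have h1 : Even (hammingDist x y) := by
      rw [← ZMod.natCast_eq_zero_iff_even, fw_parity, hJ x hx y hy]
      have : ∀ a : ZMod 2, a + a = 0 := by decide
      exact this _
    have h2 : hammingDist x y ≤ N := by
      have := hammingDist_le_card_fintype (x := x) (y := y)
      rw [Fintype.card_fin] at this
      exact this
    have h3 : hammingDist x y ≠ 0 := by
      rw [Ne, hammingDist_eq_zero]
      exact hxy
    have h4 := hI x (hJI hx) y (hJI hy)
    have hodd : Odd P := hP.odd_of_ne_two (by omega)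
    obtain ⟨c, hc⟩ := hd
    rw [hc] at h1 h2 h3 h4
    have hc4 : c < 4 := by
      by_contra hcc
      have : P * 4 ≤ P * c := Nat.mul_le_mul_left P (by omega)
      omega
    have hcev : Even c := by
      rcases Nat.even_mul.1 h1 with h | h
      · exact absurd h (Nat.not_even_iff_odd.2 hodd)
      · exact h
    have hc0 : c ≠ 0 := by
      intro h
      rw [h, mul_zero] at h3
      exact h3 rfl
    have hc2 : c ≠ 2 := by
      intro h
      rw [h, mul_comm] at h4
      exact h4 rfl
    obtain ⟨e, he⟩ := hcev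
    omega
  have h1 := hpart (I.filter (fun x => (∑ i, x i) = 0)) (Finset.filter_subset _ _) (by
    intro x hx y hy
    rw [mem_filter] at hx hy
    rw [hx.2, hy.2])
  have h2 := hpart (I.filter (fun x => ¬ (∑ i, x i) = 0)) (Finset.filter_subset _ _) (by
    intro x hx y hy
    rw [mem_filter] at hx hy
    have : ∀ a b : ZMod 2, ¬ a = 0 → ¬ b = 0 → a = b := by decide
    exact this _ _ hx.2 hy.2)
  have h3 := Finset.card_filter_add_card_filter_not (s := I) (fun x => (∑ i, x i) = 0)
  omega

end Pool.Agent.Helper14.FO
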