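import Pool.Agent.Helper14.FO.Defs

/-! MP_190084_co: a Chebyshev bound for the binomial tail. -/

set_option autoImplicit false

namespace Pool.Agent.Helper14.FO

open Finset

theorem tail_var (N : ℕ) :
    ∑ i ∈ range (N + 1), (N.choose i : ℝ) * ((N : ℝ) - 2 * i) ^ 2 = (N : ℝ) * 2 ^ N := by
  have h := congrArg (Polynomial.eval (1 / 2 : ℝ)) (bernsteinPolynomial.variance ℝ N)
  rw [Polynomial.eval_finset_sum] at h
  simp only [bernsteinPolynomial, Polynomial.eval_mul, Polynomial.eval_pow, Polynomial.eval_sub,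
    Polynomial.eval_X, Polynomial.eval_natCast, Polynomial.eval_one, nsmul_eq_mul] at h
  have h2 : ∀ i ∈ range (N + 1), ((N : ℝ) * (1 / 2) - i) ^ 2 *
      ((N.choose i : ℝ) * (1 / 2) ^ i * (1 - 1 / 2) ^ (N - i)) =
      ((N.choose i : ℝ) * ((N : ℝ) - 2 * i) ^ 2) * (1 / 4 * (1 / 2) ^ N) := by
    intro i hi
    have h3 : i ≤ N := by
      have := mem_range.1 hi
      omega
    have h4 : (1 - 1 / 2 : ℝ) = 1 / 2 := by norm_num
    have h5 : (1 / 2 : ℝ) ^ N = (1 / 2) ^ i * (1 / 2) ^ (N - i) := by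
      rw [← pow_add]
      congr 1
      omega
    rw [h4, h5]
    ring
  rw [Finset.sum_congr rfl h2, ← Finset.sum_mul] at h
  have h6 : (1 / 2 : ℝ) ^ N * 2 ^ N = 1 := by
    rw [← mul_pow]
    norm_num
  have h7 : (∑ i ∈ range (N + 1), (N.choose i : ℝ) * ((N : ℝ) - 2 * i) ^ 2) =
      (∑ i ∈ range (N + 1), (N.choose i : ℝ) * ((N : ℝ) - 2 * i) ^ 2) *
        (1 / 4 * (1 / 2) ^ N) * (4 * 2 ^ N) := by
    have : (1 / 4 * (1 / 2 : ℝ) ^ N) * (4 * 2 ^ N) = 1 := by
      calc (1 / 4 * (1 / 2 : ℝ) ^ N) * (4 * 2 ^ N) = (1 / 2 : ℝ) ^ N * 2 ^ N := by ring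
        _ = 1 := h6
    rw [mul_assoc, this, mul_one]
  rw [h7, h]
  ring

theorem st_TAIL : ST_TAIL := by
  intro N P hP
  have hP' : (2 : ℝ) * P < N := by exact_mod_cast hP
  rw [Nat.cast_sum, Finset.sum_mul, ← tail_var N]
  have h1 : range P ⊆ range (N + 1) := by
    intro i hi
    rw [mem_range] at hi ⊢
    omega
  refine le_trans (Finset.sum_le_sum (fun i hi => ?_))
    (Finset.sum_le_sum_of_subset_of_nonneg h1 (fun i _ _ => ?_))
  · apply mul_le_mul_of_nonneg_left _ (Nat.cast_nonneg _)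
    have h2 : (i : ℝ) ≤ P := by exact_mod_cast (mem_range.1 hi).le
    apply pow_le_pow_left₀ (by linarith)
    linarith
  · exact mul_nonneg (Nat.cast_nonneg _) (sq_nonneg _)

end Pool.Agent.Helper14.FO
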