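import Pool.Agent.Helper14.FO.Defs2
import Pool.Agent.Helper79.FO.TREE

/-! `ST_TR2`: a tree of points in convex position with small slopes. -/

set_option autoImplicit false

namespace Pool.Agent.Helper14.FO

open Finset

theorem st_TR2 : ST_TR2 := by
  intro x0 x1 y0 y1 κ hx hy hκ
  obtain ⟨kx, hkx, k1⟩ : ∃ kx : ℝ, 0 < kx ∧ 4 * kx < x1 - x0 :=
    ⟨(x1 - x0) / 8, by linarith, by linarith⟩
  obtain ⟨ky, hky, k2, k3, k4⟩ : ∃ ky : ℝ, 0 < ky ∧ 4 * ky < y1 - y0 ∧ ky ≤ kx ∧ ky ≤ κ * kx := by
    refine ⟨min ((y1 - y0) / 8) (min kx (κ * kx)), ?_, ?_, ?_, ?_⟩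
    · exact lt_min (by linarith) (lt_min hkx (mul_pos hκ hkx))
    · have := min_le_left ((y1 - y0) / 8) (min kx (κ * kx))
      linarith
    · exact le_trans (min_le_right _ _) (min_le_left _ _)
    · exact le_trans (min_le_right _ _) (min_le_right _ _)
  obtain ⟨X, hX⟩ : ∃ X, X = (x0 + x1) / 2 := ⟨_, rfl⟩
  obtain ⟨Y, hY⟩ : ∃ Y, Y = (y0 + y1) / 2 := ⟨_, rfl⟩
  refine ⟨fun w => X + kx * (tree_s w - 3 * tree_S w.length),
    fun w => Y + ky * (1 - tree_s w ^ 2 - 3 * tree_S w.length),
    fun l => ky * tree_sg l / 4, ?_, ?_, ?_, ?_⟩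
  · intro l
    have := (tree_pos l).1
    positivity
  · intro w
    obtain ⟨s0, s1⟩ := tree_s_bd w
    obtain ⟨S0, S1⟩ := tree_S_bd w.length
    obtain ⟨g0, g1⟩ := tree_pos w.length
    have hs2 : tree_s w ^ 2 ≤ 1 / 50 := by nlinarith
    have hs3 : 0 ≤ tree_s w ^ 2 := sq_nonneg _
    have a1 : kx * (-1) ≤ kx * (tree_s w - 3 * tree_S w.length) :=
      mul_le_mul_of_nonneg_left (by linarith) hkx.le
    have a2 : kx * (tree_s w - 3 * tree_S w.length) ≤ kx * 1 :=
      mul_le_mul_of_nonneg_left (by linarith) hkx.le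
    have a3 : ky * (-1) ≤ ky * (1 - tree_s w ^ 2 - 3 * tree_S w.length) :=
      mul_le_mul_of_nonneg_left (by linarith) hky.le
    have a4 : ky * (1 - tree_s w ^ 2 - 3 * tree_S w.length) ≤ ky * 1 :=
      mul_le_mul_of_nonneg_left (by linarith) hky.le
    have a5 : ky * tree_sg w.length ≤ ky * 1 := mul_le_mul_of_nonneg_left (by linarith) hky.le
    refine ⟨?_, ?_, ?_, ?_⟩ <;> simp only <;> linarith
  · intro w b
    obtain ⟨s0, s1⟩ := tree_s_bd w
    obtain ⟨g0, g1⟩ := tree_pos w.length
    have hd := tree_dec w.length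
    have e2 : (b :: w).length = w.length + 1 := rfl
    have e3 : tree_s (b :: w) = tree_s w + (if b = true then tree_sg w.length else 0) := rfl
    obtain ⟨h1, h2⟩ := tree_pos (w.length + 1)
    simp only [e2, e3, tree_S_succ]
    obtain ⟨t, ht⟩ : ∃ t, t = (if b = true then tree_sg w.length else 0) := ⟨_, rfl⟩
    have t0 : 0 ≤ t := by rw [ht]; split_ifs <;> linarith
    have t1 : t ≤ tree_sg w.length := by rw [ht]; split_ifs <;> linarith
    rw [← ht]
    have a0 : ky * tree_sg (w.length + 1) ≤ ky * tree_sg w.length :=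
      mul_le_mul_of_nonneg_left (by linarith) hky.le
    have a1 : 0 < ky * tree_sg w.length := by positivity
    have a2 : ky * tree_sg w.length ≤ kx * tree_sg w.length :=
      mul_le_mul_of_nonneg_right k3 g0.le
    have a4 : kx * t ≤ kx * tree_sg w.length := mul_le_mul_of_nonneg_left t1 hkx.le
    have a5 : 0 ≤ ky * ((tree_s w + t) ^ 2 - tree_s w ^ 2) := by
      apply mul_nonneg hky.le
      nlinarith
    constructor
    · have e : X + kx * (tree_s w + t - 3 * (tree_S w.length + tree_sg w.length)) =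
          X + kx * (tree_s w - 3 * tree_S w.length) + kx * t - 3 * (kx * tree_sg w.length) := by
        ring
      rw [e]
      linarith
    · have e : Y + ky * (1 - (tree_s w + t) ^ 2 - 3 * (tree_S w.length + tree_sg w.length)) =
          Y + ky * (1 - tree_s w ^ 2 - 3 * tree_S w.length) -
            ky * ((tree_s w + t) ^ 2 - tree_s w ^ 2) - 3 * (ky * tree_sg w.length) := by
        ring
      rw [e]
      linarith
  · intro F H hF hH a
    obtain ⟨s0, s1⟩ := tree_s_bd a
    have hr0 : 0 ≤ ky / kx := (div_pos hky hkx).le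
    have hr1 : ky / kx ≤ 1 := (div_le_one hkx).2 k3
    have hr2 : ky / kx ≤ κ := (div_le_iff₀ hkx).2 k4
    have hl0 : 0 ≤ 2 * tree_s a * (ky / kx) := by positivity
    have hl1 : 2 * tree_s a * (ky / kx) ≤ 1 / 25 := by
      have h1 : 2 * tree_s a * (ky / kx) ≤ 2 * tree_s a * 1 :=
        mul_le_mul_of_nonneg_left hr1 (by linarith)
      linarith
    have hl2 : 2 * tree_s a * (ky / kx) ≤ κ := by
      have h1 : 2 * tree_s a * (ky / kx) ≤ 1 * (ky / kx) :=
        mul_le_mul_of_nonneg_right (by linarith) hr0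
      linarith
    refine ⟨2 * tree_s a * (ky / kx), hl0, hl2, ?_⟩
    intro b hb
    have key := tree_key a b hb
    have hlk : ∀ z : ℝ, 2 * tree_s a * (ky / kx) * (kx * z) = 2 * tree_s a * (ky * z) := by
      intro z
      have : ky / kx * kx = ky := div_mul_cancel₀ ky hkx.ne'
      calc 2 * tree_s a * (ky / kx) * (kx * z) = 2 * tree_s a * ((ky / kx * kx) * z) := by ring
        _ = 2 * tree_s a * (ky * z) := by rw [this]
    have ea := hlk (tree_s a - 3 * tree_S a.length)
    have eb := hlk (tree_s b - 3 * tree_S b.length)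
    obtain ⟨l, hl⟩ : ∃ l, l = 2 * tree_s a * (ky / kx) := ⟨_, rfl⟩
    rw [← hl] at hl0 hl1 ea eb ⊢
    have fa := abs_lt.1 (hF a)
    have fb := abs_lt.1 (hF b)
    have ga := abs_lt.1 (hH a)
    have gb := abs_lt.1 (hH b)
    simp only at fa fb ga gb
    have pa := (tree_pos a.length).1
    have pb := (tree_pos b.length).1
    have qa : 0 < ky * tree_sg a.length := by positivity
    have qb : 0 < ky * tree_sg b.length := by positivity
    have key2 := mul_lt_mul_of_pos_left key hky
    have u1 : l * (F b - (X + kx * (tree_s b - 3 * tree_S b.length))) ≤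
        l * (ky * tree_sg b.length / 4) :=
      mul_le_mul_of_nonneg_left fb.2.le hl0
    have u2 : l * (-(ky * tree_sg a.length / 4)) ≤
        l * (F a - (X + kx * (tree_s a - 3 * tree_S a.length))) :=
      mul_le_mul_of_nonneg_left fa.1.le hl0
    have u3 : l * (ky * tree_sg b.length / 4) ≤ 1 / 25 * (ky * tree_sg b.length / 4) :=
      mul_le_mul_of_nonneg_right hl1 (by linarith)
    have u4 : l * (ky * tree_sg a.length / 4) ≤ 1 / 25 * (ky * tree_sg a.length / 4) :=
      mul_le_mul_of_nonneg_right hl1 (by linarith)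
    have v1 : l * F b ≤ l * X + 2 * tree_s a * (ky * (tree_s b - 3 * tree_S b.length)) +
        1 / 25 * (ky * tree_sg b.length / 4) := by
      have : l * (F b - (X + kx * (tree_s b - 3 * tree_S b.length))) =
          l * F b - l * X - l * (kx * (tree_s b - 3 * tree_S b.length)) := by ring
      rw [this, eb] at u1
      linarith
    have v2 : l * X + 2 * tree_s a * (ky * (tree_s a - 3 * tree_S a.length)) -
        1 / 25 * (ky * tree_sg a.length / 4) ≤ l * F a := by
      have : l * (F a - (X + kx * (tree_s a - 3 * tree_S a.length))) =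
          l * F a - l * X - l * (kx * (tree_s a - 3 * tree_S a.length)) := by ring
      rw [this, ea] at u2
      have h2 : l * (-(ky * tree_sg a.length / 4)) = -(l * (ky * tree_sg a.length / 4)) := by ring
      rw [h2] at u2
      linarith
    have e5 : (2 * tree_s a * (ky * (tree_s a - 3 * tree_S a.length)) +
          ky * (1 - tree_s a ^ 2 - 3 * tree_S a.length)) -
        (2 * tree_s a * (ky * (tree_s b - 3 * tree_S b.length)) +
          ky * (1 - tree_s b ^ 2 - 3 * tree_S b.length)) =
        ky * ((tree_s a - tree_s b) ^ 2 +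
          (3 * tree_S b.length - 3 * tree_S a.length) * (1 + 2 * tree_s a)) := by ring
    have e6 : ky * ((tree_sg a.length + tree_sg b.length) / 2) =
        ky * tree_sg a.length / 2 + ky * tree_sg b.length / 2 := by ring
    rw [e6] at key2
    linarith [fa.1, fa.2, ga.1, gb.2]

end Pool.Agent.Helper14.FO
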